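import Pool.Agent.Work.MP_c264fd_sync.Slots
import Pool.Agent.Work.MP_c264fd_rough.Process

/-!
# All stationary laws charge all local patterns
-/

set_option autoImplicit false

open MeasureTheory ProbabilityTheory Filter Topology

namespace Pool.BDep.Sync

/-- the probability that the clocks of the sites `x₀-N-1, ..., x₀+N+1` follow the word `w` in the
windows `(0, 1], (1, 2], ...` -/
theorem prob_word {Ω : Type} [MeasurableSpace Ω] (P : Measure Ω) [IsProbabilityMeasure P]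
    {C : ℤ → Ω → Set ℝ} (hC : IsPoissonClocks P C) (w : List ℤ) (N : ℕ) (x₀ : ℤ) :
    ENNReal.ofReal (Real.exp (-1)) ^ (w.length * (2 * N + 3)) ≤
      P {ω | ∀ (i : Fin w.length) (l : Fin (2 * N + 3)),
        count C (x₀ - N - 1 + (l : ℕ)) (i : ℕ) ((i : ℕ) + 1) ω =
          if x₀ - N - 1 + (l : ℕ) = w[i] then 1 else 0} := by
  obtain ⟨e, -⟩ : ∃ e : Fin w.length × Fin (2 * N + 3) ≃ Fin (w.length * (2 * N + 3)), True :=
    ⟨finProdFinEquiv, trivial⟩
  have hind := hC.indep (w.length * (2 * N + 3))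
    (fun j => x₀ - N - 1 + (((e.symm j).2 : Fin (2 * N + 3)) : ℕ))
    (fun j => (((e.symm j).1 : Fin w.length) : ℕ))
    (fun j => (((e.symm j).1 : Fin w.length) : ℕ) + 1) (fun j => Nat.cast_nonneg _) (by
      intro i j hij hx
      have h1 : (e.symm i).2 = (e.symm j).2 := by
        apply Fin.ext
        have : (((e.symm i).2 : ℕ) : ℤ) = (((e.symm j).2 : ℕ) : ℤ) := by linarith
        exact_mod_cast this
      have h2 : (((e.symm i).1 : Fin w.length) : ℕ) ≠ (((e.symm j).1 : Fin w.length) : ℕ) := by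
        intro h
        apply hij
        apply e.symm.injective
        exact Prod.ext (Fin.ext h) h1
      rw [Set.disjoint_left]
      rintro t ⟨g1, g2⟩ ⟨g3, g4⟩
      rcases Nat.lt_or_gt_of_ne h2 with h | h
      · have : ((((e.symm i).1 : Fin w.length) : ℕ) : ℝ) + 1 ≤
            (((e.symm j).1 : Fin w.length) : ℕ) := by exact_mod_cast h
        linarith
      · have : ((((e.symm j).1 : Fin w.length) : ℕ) : ℝ) + 1 ≤
            (((e.symm i).1 : Fin w.length) : ℕ) := by exact_mod_cast h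
        linarith)
  have h := hind.measure_inter_preimage_eq_mul Finset.univ
    (sets := fun j => {if x₀ - N - 1 + (((e.symm j).2 : Fin (2 * N + 3)) : ℕ) =
      w[(e.symm j).1] then 1 else 0}) (fun _ _ => MeasurableSet.singleton _)
  have hprod : ∏ j : Fin (w.length * (2 * N + 3)),
      P (count C (x₀ - N - 1 + (((e.symm j).2 : Fin (2 * N + 3)) : ℕ))
        (((e.symm j).1 : Fin w.length) : ℕ) ((((e.symm j).1 : Fin w.length) : ℕ) + 1) ⁻¹'
        {if x₀ - N - 1 + (((e.symm j).2 : Fin (2 * N + 3)) : ℕ) = w[(e.symm j).1] then 1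
          else 0}) = ENNReal.ofReal (Real.exp (-1)) ^ (w.length * (2 * N + 3)) := by
    rw [Finset.prod_congr rfl (g := fun _ => ENNReal.ofReal (Real.exp (-1)))]
    · rw [Finset.prod_const, Finset.card_univ, Fintype.card_fin]
    · intro j _
      rw [CL26.prob_cell hC _ (Nat.cast_nonneg _) (by linarith)]
      congr 1
      split_ifs <;> simp
  rw [← hprod, ← h]
  refine measure_mono ?_
  intro ω hω i l
  rw [Set.mem_iInter₂] at hω
  have h3 := hω (e (i, l)) (Finset.mem_univ _)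
  simp only [Set.mem_preimage, Set.mem_singleton_iff, Equiv.symm_apply_apply] at h3
  exact h3

/-- every pattern `p` of a finite window has at least the probability `c(p) > 0`, at every place
`x₀` and for every stationary law -/
theorem full (N : ℕ) (p : ℤ → ℤ) (hp : p 0 = 0) :
    ∃ c : ℝ, 0 < c ∧ ∀ μ : Measure Config, IsStationary μ → ∀ x₀ : ℤ,
      ENNReal.ofReal c ≤ μ {g | ∀ x : ℤ, |x| ≤ N → g (x₀ + x) - g x₀ = p x} := by
  obtain ⟨w₀, hw₀, hw2⟩ := word N p hp
  refine ⟨Real.exp (-1) ^ (w₀.length * (2 * N + 3)), by positivity, ?_⟩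
  intro μ hμ x₀
  obtain ⟨w, hwd⟩ : ∃ w : List ℤ, w = w₀.map (x₀ + ·) := ⟨_, rfl⟩
  have hlen : w₀.length = w.length := by
    rw [hwd, List.length_map]
  have hw : ∀ x ∈ w, x₀ - N ≤ x ∧ x ≤ x₀ + N := by
    intro x hx
    rw [hwd, List.mem_map] at hx
    obtain ⟨z, hz, rfl⟩ := hx
    have := hw₀ z hz
    show x₀ - N ≤ x₀ + z ∧ x₀ + z ≤ x₀ + N
    omega
  have hpat : ∀ (h : Config) (y : ℤ), -(N : ℤ) ≤ y → y ≤ N →
      run w h (x₀ + y) - run w h x₀ = p y := by
    intro h y h1 h2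
    have h3 := hw2 (sh x₀ h) y h1 h2
    rw [← sh_run, ← hwd] at h3
    have h4 : sh x₀ (run w h) 0 = run w h x₀ := by
      show run w h (x₀ + 0) = run w h x₀
      rw [add_zero]
    rw [h4] at h3
    exact h3
  rw [hlen]
  obtain ⟨hμP, hst⟩ := hμ
  obtain ⟨Ω, mΩ, P, hP, C, g, H, hBD, hg⟩ := Rough.processExists' μ hμP
  obtain ⟨hm, hmap⟩ := hst Ω mΩ P hP C g H hBD hg (w.length : ℝ) (Nat.cast_nonneg _)
  have hS : MeasurableSet {g : Config | ∀ x : ℤ, |x| ≤ N → g (x₀ + x) - g x₀ = p x} := by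
    have h1 : {g : Config | ∀ x : ℤ, |x| ≤ N → g (x₀ + x) - g x₀ = p x} =
        ⋂ x : ℤ, ⋂ (_ : |x| ≤ N), (fun g : Config => g (x₀ + x) - g x₀) ⁻¹' {p x} := by
      ext g
      simp
    rw [h1]
    exact MeasurableSet.iInter fun x => MeasurableSet.iInter fun _ =>
      ((measurable_pi_apply (x₀ + x)).sub (measurable_pi_apply x₀)) (MeasurableSet.singleton _)
  have hrec : AEMeasurable (fun ω => recenter (H (w.length : ℝ) ω)) P :=
    Bridge.measurable_recenter.comp_aemeasurable hm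
  rw [← hmap, Measure.map_apply_of_aemeasurable hrec hS, ENNReal.ofReal_pow (Real.exp_pos _).le]
  refine (prob_word P hBD.clocks w N x₀).trans (measure_mono_ae ?_)
  filter_upwards [hBD.dyn] with ω hω hE
  have hE' : ∀ (i : Fin w.length) (l : Fin (2 * N + 3)),
      count C (x₀ - N - 1 + (l : ℕ)) (i : ℕ) ((i : ℕ) + 1) ω =
        if x₀ - N - 1 + (l : ℕ) = w[i] then 1 else 0 := hE
  have hcount : ∀ (i : ℕ) (hi : i < w.length) (y : ℤ), x₀ - N - 1 ≤ y → y ≤ x₀ + N + 1 →
      (C y ω ∩ Set.Ioc ((i : ℕ) : ℝ) ((i : ℕ) + 1)).ncard = if y = w[i] then 1 else 0 := by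
    intro i hi y h1 h2
    have h3 := hE' ⟨i, hi⟩ ⟨(y - x₀ + N + 1).toNat, by omega⟩
    have h4 : x₀ - N - 1 + (((y - x₀ + N + 1).toNat : ℕ) : ℤ) = y := by omega
    simp only [h4] at h3
    exact h3
  have hfol := follow (a := x₀ - N) (b := x₀ + N) hω one_pos w hw 0 le_rfl (by
    intro i hi
    have e1 : (0 : ℝ) + (i : ℝ) * 1 = i := by ring
    have e2 : (0 : ℝ) + ((i : ℝ) + 1) * 1 = (i : ℝ) + 1 := by ring
    rw [e1, e2]
    have hwi := hw w[i] (List.getElem_mem hi)
    refine ⟨?_, ?_⟩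
    · have h1 := hcount i hi w[i] (by omega) (by omega)
      rw [if_pos rfl] at h1
      exact h1
    · intro y h1 h2 h3
      have h4 := hcount i hi y h1 h2
      rw [if_neg h3] at h4
      have hfin : (C y ω ∩ Set.Ioc (i : ℝ) ((i : ℝ) + 1)).Finite :=
        (hBD.clocks.finite y ω ((i : ℝ) + 1)).subset fun τ hτ =>
          ⟨hτ.1, lt_of_le_of_lt (Nat.cast_nonneg _) hτ.2.1, hτ.2.2⟩
      exact (Set.ncard_eq_zero hfin).mp h4)
  have e3 : (0 : ℝ) + (w.length : ℝ) * 1 = w.length := by ring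
  rw [e3] at hfol
  show recenter (H (w.length : ℝ) ω) ∈
    {g : Config | ∀ x : ℤ, |x| ≤ N → g (x₀ + x) - g x₀ = p x}
  intro x hx
  rw [abs_le] at hx
  show (H (w.length : ℝ) ω (x₀ + x) - H (w.length : ℝ) ω 0) -
    (H (w.length : ℝ) ω x₀ - H (w.length : ℝ) ω 0) = p x
  have h5 := hfol (x₀ + x) (by omega) (by omega)
  have h6 := hfol x₀ (by omega) (by omega)
  have h7 : H (w.length : ℝ) ω (x₀ + x) = run w (H 0 ω) (x₀ + x) := h5
  have h8 : H (w.length : ℝ) ω x₀ = run w (H 0 ω) x₀ := h6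
  have h9 := hpat (H 0 ω) x hx.1 hx.2
  rw [h7, h8]
  linarith

end Pool.BDep.Sync
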