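import Pool.Agent.Work.MP_c264fd_sync.Word
import Pool.Agent.Work.MP_c264fd_pr_helper26.ClockLaw

/-!
# The clocks follow a given word
-/

set_option autoImplicit false

open MeasureTheory ProbabilityTheory Filter Topology

namespace Pool.BDep.Sync

/-- one slot: exactly one ring, at `x` -/
theorem slot {c : ℤ → Set ℝ} {H : ℝ → Config} (hH : IsBDTrajectory c H) {a b x : ℤ}
    (hx : a ≤ x ∧ x ≤ b) {s t : ℝ} (hs : 0 ≤ s) (hst : s ≤ t)
    (h1 : (c x ∩ Set.Ioc s t).ncard = 1)
    (h0 : ∀ y, a - 1 ≤ y → y ≤ b + 1 → y ≠ x → c y ∩ Set.Ioc s t = ∅) :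
    ∀ y, a - 1 ≤ y → y ≤ b + 1 → H t y = rg x (H s) y := by
  intro y hy1 hy2
  by_cases hyx : y = x
  · subst hyx
    obtain ⟨r, hr⟩ := Set.ncard_eq_one.mp h1
    have hrm : r ∈ c y ∩ Set.Ioc s t := by
      rw [hr]
      exact Set.mem_singleton r
    obtain ⟨hrc, hrs, hrt⟩ := hrm
    have huniq : ∀ u, u ∈ c y → s < u → u ≤ t → u = r := by
      intro u g1 g2 g3
      have : u ∈ c y ∩ Set.Ioc s t := ⟨g1, g2, g3⟩
      rw [hr] at this
      exact this
    obtain ⟨ε, hε, hεr, hjump⟩ := hH.2 y r (by linarith) hrc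
    obtain ⟨u, hu1, hu2⟩ := exists_between (show max s (r - ε) < r from
      max_lt hrs (by linarith))
    have hus : s < u := lt_of_le_of_lt (le_max_left _ _) hu1
    have hur : r - ε < u := lt_of_le_of_lt (le_max_right _ _) hu1
    have e1 := hjump u ⟨hur, hu2⟩
    have e2 : H t y = H r y := by
      refine hH.1 y r t (by linarith) hrt ?_
      ext v
      simp only [Set.mem_inter_iff, Set.mem_Ioc, Set.mem_empty_iff_false, iff_false]
      rintro ⟨g1, g2, g3⟩
      have := huniq v g1 (by linarith) g3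
      linarith
    have e3 : H u y = H s y := by
      refine hH.1 y s u hs hus.le ?_
      ext v
      simp only [Set.mem_inter_iff, Set.mem_Ioc, Set.mem_empty_iff_false, iff_false]
      rintro ⟨g1, g2, g3⟩
      have := huniq v g1 g2 (by linarith)
      linarith
    have e4 : ∀ z, a - 1 ≤ z → z ≤ b + 1 → z ≠ y → H u z = H s z := by
      intro z g1 g2 g3
      refine hH.1 z s u hs hus.le ?_
      have h2 := h0 z g1 g2 g3
      ext v
      simp only [Set.mem_inter_iff, Set.mem_Ioc, Set.mem_empty_iff_false, iff_false]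
      rintro ⟨k1, k2, k3⟩
      have : v ∈ c z ∩ Set.Ioc s t := ⟨k1, k2, by linarith⟩
      rw [h2] at this
      exact this
    rw [rg_same, e2, e1, e3, e4 (y - 1) (by omega) (by omega) (by omega),
      e4 (y + 1) (by omega) (by omega) (by omega)]
  · rw [rg_ne _ hyx]
    exact hH.1 y s t hs hst (h0 y hy1 hy2 hyx)

/-- the word `w` is followed from the time `s` on, in slots of length `δ` -/
theorem follow {c : ℤ → Set ℝ} {H : ℝ → Config} (hH : IsBDTrajectory c H) {a b : ℤ} {δ : ℝ}
    (hδ : 0 < δ) (w : List ℤ) : (∀ x ∈ w, a ≤ x ∧ x ≤ b) → ∀ s : ℝ, 0 ≤ s →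
    (∀ i : ℕ, (hi : i < w.length) → (c w[i] ∩ Set.Ioc (s + i * δ) (s + (i + 1) * δ)).ncard = 1 ∧
      ∀ y, a - 1 ≤ y → y ≤ b + 1 → y ≠ w[i] →
        c y ∩ Set.Ioc (s + i * δ) (s + (i + 1) * δ) = ∅) →
    ∀ y, a - 1 ≤ y → y ≤ b + 1 → H (s + w.length * δ) y = run w (H s) y := by
  induction w with
  | nil =>
    intro _ s _ _ y _ _
    simp [run]
  | cons x w ih =>
    intro hw s hs hcl y hy1 hy2
    have hx := hw x List.mem_cons_self
    have h1 := hcl 0 (by simp)
    have e0 : s + ((0 : ℕ) : ℝ) * δ = s := by simp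
    have e1 : s + (((0 : ℕ) : ℝ) + 1) * δ = s + δ := by simp
    rw [e0, e1] at h1
    have h2 := slot hH hx hs (by linarith) h1.1 h1.2
    have h3 := ih (fun z hz => hw z (List.mem_cons_of_mem _ hz)) (s + δ) (by linarith) (by
      intro i hi
      have h4 := hcl (i + 1) (by simpa using hi)
      have e2 : s + ((i + 1 : ℕ) : ℝ) * δ = s + δ + i * δ := by
        push_cast
        ring
      have e3 : s + (((i + 1 : ℕ) : ℝ) + 1) * δ = s + δ + (i + 1) * δ := by
        push_cast
        ring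
      rw [e2, e3] at h4
      exact h4) y hy1 hy2
    have e4 : s + ((x :: w).length : ℝ) * δ = s + δ + w.length * δ := by
      rw [List.length_cons]
      push_cast
      ring
    rw [e4, h3]
    exact run_congr w (fun z hz => hw z (List.mem_cons_of_mem _ hz)) h2 y hy1 hy2

end Pool.BDep.Sync
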