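import Pool.Agent.Work.MP_c264fd_pr_h14.Defs

/-!
# A synchronising word of ballistic deposition on an interval

`rg x h`: a ring at `x`.  `run w h`: the rings of the list `w`.  For every profile `p` on the interval
`[a, b]` there is a list `w` of sites of `[a, b]` such that `run w h` is `p` up to a constant on
`[a, b]`, for every configuration `h`.
-/

set_option autoImplicit false

namespace Pool.BDep.Sync

/-- a ring at `x` -/
def rg (x : ℤ) (h : Config) : Config := fun y =>
  if y = x then max (max (h (x - 1)) (h (x + 1))) (h x + 1) else h y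

/-- the rings of a list -/
def run : List ℤ → Config → Config
  | [], h => h
  | x :: w, h => run w (rg x h)

theorem run_append (w v : List ℤ) (h : Config) : run (w ++ v) h = run v (run w h) := by
  induction w generalizing h with
  | nil => rfl
  | cons x w ih => exact ih (rg x h)

theorem rg_same (x : ℤ) (h : Config) :
    rg x h x = max (max (h (x - 1)) (h (x + 1))) (h x + 1) := if_pos rfl

theorem rg_ne {x y : ℤ} (h : Config) (hy : y ≠ x) : rg x h y = h y := if_neg hy

/-- `run` depends only on the values in `[a - 1, b + 1]` -/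
theorem rg_congr {a b x : ℤ} (hx : a ≤ x ∧ x ≤ b) {h h' : Config}
    (hh : ∀ y, a - 1 ≤ y → y ≤ b + 1 → h y = h' y) :
    ∀ y, a - 1 ≤ y → y ≤ b + 1 → rg x h y = rg x h' y := by
  intro y h1 h2
  by_cases hy : y = x
  · subst hy
    rw [rg_same, rg_same, hh (y - 1) (by omega) (by omega), hh (y + 1) (by omega) (by omega),
      hh y h1 h2]
  · rw [rg_ne _ hy, rg_ne _ hy, hh y h1 h2]

theorem run_congr {a b : ℤ} (w : List ℤ) (hw : ∀ x ∈ w, a ≤ x ∧ x ≤ b) {h h' : Config}
    (hh : ∀ y, a - 1 ≤ y → y ≤ b + 1 → h y = h' y) :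
    ∀ y, a - 1 ≤ y → y ≤ b + 1 → run w h y = run w h' y := by
  induction w generalizing h h' with
  | nil => exact hh
  | cons x w ih =>
    exact ih (fun z hz => hw z (List.mem_cons_of_mem _ hz))
      (rg_congr (hw x List.mem_cons_self) hh)

/-- heights `c + f` on `[a, b]`, at most `c` at the two neighbours -/
def Prof (a b c : ℤ) (f : ℤ → ℤ) (h : Config) : Prop :=
  (∀ y, a ≤ y → y ≤ b → h y = c + f y) ∧ h (a - 1) ≤ c ∧ h (b + 1) ≤ c

theorem prof_rg {a b c x : ℤ} {f f' : ℤ → ℤ} {h : Config} (hP : Prof a b c f h)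
    (hx : a ≤ x ∧ x ≤ b) (hf : 0 ≤ f x) (h1 : ∀ y, a ≤ y → y ≤ b → f y ≤ f x + 1)
    (hx' : f' x = f x + 1) (hy' : ∀ y, y ≠ x → f' y = f y) : Prof a b c f' (rg x h) := by
  obtain ⟨hP1, hP2, hP3⟩ := hP
  refine ⟨?_, ?_, ?_⟩
  · intro y hy1 hy2
    by_cases hyx : y = x
    · subst hyx
      rw [rg_same, hx', hP1 y hy1 hy2]
      have hl : h (y - 1) ≤ c + f y + 1 := by
        rcases Int.lt_or_le (y - 1) a with g | g
        · have : y - 1 = a - 1 := by omega
          rw [this]
          omega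
        · rw [hP1 _ g (by omega)]
          have := h1 (y - 1) g (by omega)
          omega
      have hr : h (y + 1) ≤ c + f y + 1 := by
        rcases Int.lt_or_le b (y + 1) with g | g
        · have : y + 1 = b + 1 := by omega
          rw [this]
          omega
        · rw [hP1 _ (by omega) g]
          have := h1 (y + 1) (by omega) g
          omega
      rw [max_eq_right (max_le hl hr)]
      ring
    · rw [rg_ne _ hyx, hy' y hyx, hP1 y hy1 hy2]
  · rw [rg_ne _ (by omega)]
    exact hP2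
  · rw [rg_ne _ (by omega)]
    exact hP3

/-- every nonnegative profile can be grown from the flat one -/
theorem grow (a b : ℤ) (M : ℕ) : ∀ q : ℤ → ℤ, (∀ y, a ≤ y → y ≤ b → 0 ≤ q y) →
    ∑ y ∈ Finset.Icc a b, q y = M → ∃ w : List ℤ, (∀ x ∈ w, a ≤ x ∧ x ≤ b) ∧
      ∀ (c : ℤ) (h : Config), Prof a b c (fun _ => 0) h → Prof a b c q (run w h) := by
  induction M with
  | zero =>
    intro q hq hs
    refine ⟨[], by simp, ?_⟩
    intro c h hP
    refine ⟨?_, hP.2⟩
    intro y h1 h2
    have h3 : q y = 0 := (Finset.sum_eq_zero_iff_of_nonneg (fun y hy => by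
      rw [Finset.mem_Icc] at hy
      exact hq y hy.1 hy.2)).mp (by simpa using hs) y (Finset.mem_Icc.mpr ⟨h1, h2⟩)
    rw [h3]
    exact hP.1 y h1 h2
  | succ M ih =>
    intro q hq hs
    have hne : (Finset.Icc a b).Nonempty := by
      rw [Finset.nonempty_iff_ne_empty]
      intro h
      rw [h, Finset.sum_empty] at hs
      omega
    obtain ⟨x, hx, hmax⟩ := Finset.exists_max_image (Finset.Icc a b) q hne
    rw [Finset.mem_Icc] at hx
    have hqx : 1 ≤ q x := by
      by_contra hc
      have h1 : ∑ y ∈ Finset.Icc a b, q y ≤ ∑ y ∈ Finset.Icc a b, 0 :=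
        Finset.sum_le_sum fun y hy => by
          have := hmax y hy
          omega
      rw [Finset.sum_const_zero] at h1
      omega
    have hsum : ∑ y ∈ Finset.Icc a b, (q y - if y = x then 1 else 0) = M := by
      rw [Finset.sum_sub_distrib, hs, Finset.sum_ite_eq' (Finset.Icc a b) x,
        if_pos (Finset.mem_Icc.mpr hx)]
      push_cast
      ring
    obtain ⟨w, hw, hw2⟩ := ih (fun y => q y - if y = x then 1 else 0) (by
      intro y h1 h2
      show 0 ≤ q y - if y = x then 1 else 0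
      by_cases h3 : y = x
      · rw [if_pos h3, h3]
        omega
      · rw [if_neg h3]
        have := hq y h1 h2
        omega) hsum
    refine ⟨w ++ [x], ?_, ?_⟩
    · intro z hz
      rcases List.mem_append.mp hz with h | h
      · exact hw z h
      · rw [List.mem_singleton.mp h]
        exact hx
    · intro c h hP
      rw [run_append]
      show Prof a b c q (rg x (run w h))
      refine prof_rg (hw2 c h hP) hx ?_ ?_ ?_ ?_
      · show 0 ≤ q x - if x = x then 1 else 0
        rw [if_pos rfl]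
        omega
      · intro y h1 h2
        show (q y - if y = x then 1 else 0) ≤ (q x - if x = x then 1 else 0) + 1
        rw [if_pos rfl]
        have h3 := hmax y (Finset.mem_Icc.mpr ⟨h1, h2⟩)
        split_ifs <;> omega
      · show q x = (q x - if x = x then 1 else 0) + 1
        rw [if_pos rfl]
        ring
      · intro y hy
        show q y = q y - if y = x then 1 else 0
        rw [if_neg hy]
        ring

/-! ### Flattening -/

/-- `a + k, ..., a + 1` -/
def swl (a : ℤ) : ℕ → List ℤ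
  | 0 => []
  | k + 1 => (a + (k + 1 : ℕ)) :: swl a k

/-- `a + 1, ..., a + k` -/
def swr (a : ℤ) : ℕ → List ℤ
  | 0 => []
  | k + 1 => swr a k ++ [a + (k + 1 : ℕ)]

theorem swl_mem (a : ℤ) (k : ℕ) : ∀ x ∈ swl a k, a ≤ x ∧ x ≤ a + k := by
  induction k with
  | zero => simp [swl]
  | succ k ih =>
    intro x hx
    rcases List.mem_cons.mp hx with h | h
    · rw [h]
      push_cast
      omega
    · have := ih x h
      push_cast
      omega

theorem swr_mem (a : ℤ) (k : ℕ) : ∀ x ∈ swr a k, a ≤ x ∧ x ≤ a + k := by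
  induction k with
  | zero => simp [swr]
  | succ k ih =>
    intro x hx
    rcases List.mem_append.mp hx with h | h
    · have := ih x h
      push_cast
      omega
    · rw [List.mem_singleton.mp h]
      push_cast
      omega

theorem run_swl (a : ℤ) (k : ℕ) : ∀ h : Config,
    (∀ y, y ≤ a ∨ a + k < y → run (swl a k) h y = h y) ∧
    ∀ i : ℕ, 1 ≤ i → i ≤ k → run (swl a k) h (a + i + 1) ≤ run (swl a k) h (a + i) := by
  induction k with
  | zero =>
    intro h
    exact ⟨fun _ _ => rfl, fun i h1 h2 => by omega⟩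
  | succ k ih =>
    intro h
    obtain ⟨h1, h2⟩ := ih (rg (a + (k + 1 : ℕ)) h)
    have hrun : run (swl a (k + 1)) h = run (swl a k) (rg (a + (k + 1 : ℕ)) h) := rfl
    rw [hrun]
    refine ⟨?_, ?_⟩
    · intro y hy
      rw [h1 y (by push_cast at hy ⊢; omega), rg_ne _ (by push_cast at hy ⊢; omega)]
    · intro i hi1 hi2
      rcases Nat.lt_or_ge k i with h3 | h3
      · have h4 : i = k + 1 := by omega
        subst h4
        rw [h1 (a + ((k + 1 : ℕ) : ℤ) + 1) (by push_cast; omega),
          h1 (a + ((k + 1 : ℕ) : ℤ)) (by push_cast; omega), rg_same, rg_ne _ (by omega)]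
        exact (le_max_right _ _).trans (le_max_left _ _)
      · exact h2 i hi1 h3

theorem swl_top (a : ℤ) (k : ℕ) (h : Config) (i : ℕ) (hi : i ≤ k) :
    run (swl a k) h (a + i + 1) ≤ run (swl a k) h (a + 1) := by
  induction i with
  | zero => simp
  | succ i ih =>
    have h1 := (run_swl a k h).2 (i + 1) (by omega) hi
    have h2 := ih (by omega)
    have h3 : a + ((i + 1 : ℕ) : ℤ) = a + i + 1 := by
      push_cast
      ring
    rw [h3] at h1
    rw [h3]
    exact h1.trans h2

theorem run_swr (a : ℤ) (n : ℕ) (h : Config)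
    (hh : ∀ y, a - 1 ≤ y → y ≤ a + n + 1 → y ≠ a → h y + 1 ≤ h a) (k : ℕ) (hk : k ≤ n) :
    (∀ i : ℕ, i ≤ k → run (swr a k) h (a + i) = h a) ∧
      ∀ y, y < a ∨ a + k < y → run (swr a k) h y = h y := by
  induction k with
  | zero =>
    refine ⟨?_, fun _ _ => rfl⟩
    intro i hi
    have : i = 0 := by omega
    subst this
    show h (a + (0 : ℕ)) = h a
    simp
  | succ k ih =>
    obtain ⟨h1, h2⟩ := ih (by omega)
    have hrun : run (swr a (k + 1)) h = rg (a + (k + 1 : ℕ)) (run (swr a k) h) := by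
      show run (swr a k ++ [a + (k + 1 : ℕ)]) h = _
      rw [run_append]
      rfl
    rw [hrun]
    refine ⟨?_, ?_⟩
    · intro i hi
      rcases Nat.lt_or_ge k i with h3 | h3
      · have h4 : i = k + 1 := by omega
        subst h4
        have e1 : a + ((k + 1 : ℕ) : ℤ) - 1 = a + (k : ℤ) := by
          push_cast
          ring
        rw [rg_same, e1, h1 k le_rfl, h2 (a + ((k + 1 : ℕ) : ℤ) + 1) (by push_cast; omega),
          h2 (a + ((k + 1 : ℕ) : ℤ)) (by push_cast; omega)]
        have g1 := hh (a + ((k + 1 : ℕ) : ℤ) + 1) (by push_cast; omega) (by push_cast; omega)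
          (by push_cast; omega)
        have g2 := hh (a + ((k + 1 : ℕ) : ℤ)) (by push_cast; omega) (by push_cast; omega)
          (by push_cast; omega)
        rw [max_eq_left (show h (a + ((k + 1 : ℕ) : ℤ) + 1) ≤ h a by omega), max_eq_left g2]
      · rw [rg_ne _ (by push_cast; omega), h1 i h3]
    · intro y hy
      rw [rg_ne _ (by push_cast at hy ⊢; omega), h2 y (by push_cast at hy; omega)]

/-- the flattening word -/
def flat (a : ℤ) (n : ℕ) : List ℤ := swl a n ++ ([a, a] ++ swr a n)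

theorem flat_mem (a : ℤ) (n : ℕ) : ∀ x ∈ flat a n, a ≤ x ∧ x ≤ a + n := by
  intro x hx
  unfold flat at hx
  rcases List.mem_append.mp hx with h | h
  · exact swl_mem a n x h
  · rcases List.mem_append.mp h with h | h
    · have : x = a := by simpa using h
      rw [this]
      omega
    · exact swr_mem a n x h

theorem flat_run (a : ℤ) (n : ℕ) (h : Config) :
    ∃ c, Prof a (a + n) c (fun _ => 0) (run (flat a n) h) := by
  unfold flat
  rw [run_append, run_append]
  obtain ⟨h1, hh1⟩ : ∃ h1, h1 = run (swl a n) h := ⟨_, rfl⟩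
  rw [← hh1]
  have hrun : run [a, a] h1 = rg a (rg a h1) := rfl
  rw [hrun]
  have htop : ∀ y, a - 1 ≤ y → y ≤ a + n + 1 → y ≠ a → h1 y ≤ max (h1 (a - 1)) (h1 (a + 1)) := by
    intro y g1 g2 g3
    rcases Int.lt_or_le y a with g4 | g4
    · have : y = a - 1 := by omega
      rw [this]
      exact le_max_left _ _
    · obtain ⟨i, hi⟩ : ∃ i : ℕ, y = a + i + 1 := ⟨(y - a - 1).toNat, by omega⟩
      rw [hi, hh1]
      exact (swl_top a n h i (by omega)).trans (le_max_right _ _)
  obtain ⟨h2, hh2⟩ : ∃ h2, h2 = rg a (rg a h1) := ⟨_, rfl⟩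
  rw [← hh2]
  have hpk : ∀ y, a - 1 ≤ y → y ≤ a + n + 1 → y ≠ a → h2 y + 1 ≤ h2 a := by
    intro y g1 g2 g3
    rw [hh2, rg_ne _ g3, rg_ne _ g3, rg_same (x := a) (rg a h1), rg_same]
    have g4 := htop y g1 g2 g3
    refine le_trans ?_ (le_max_right _ _)
    have g5 : max (h1 (a - 1)) (h1 (a + 1)) ≤ max (max (h1 (a - 1)) (h1 (a + 1))) (h1 a + 1) :=
      le_max_left _ _
    omega
  obtain ⟨r1, r2⟩ := run_swr a n h2 hpk n le_rfl
  refine ⟨h2 a, ?_, ?_, ?_⟩
  · intro y g1 g2
    obtain ⟨i, hi⟩ : ∃ i : ℕ, y = a + i := ⟨(y - a).toNat, by omega⟩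
    rw [hi, r1 i (by omega)]
    ring
  · rw [r2 _ (Or.inl (by omega))]
    have := hpk (a - 1) le_rfl (by omega) (by omega)
    omega
  · rw [r2 _ (Or.inr (by omega))]
    have := hpk (a + n + 1) (by omega) le_rfl (by omega)
    omega

/-- the synchronising word -/
theorem word (N : ℕ) (p : ℤ → ℤ) (hp : p 0 = 0) :
    ∃ w : List ℤ, (∀ x ∈ w, -(N : ℤ) ≤ x ∧ x ≤ N) ∧ ∀ h : Config, ∀ y : ℤ, -(N : ℤ) ≤ y →
      y ≤ N → run w h y - run w h 0 = p y := by
  obtain ⟨K, hK⟩ : ∃ K : ℤ, ∀ y, -(N : ℤ) ≤ y → y ≤ N → 0 ≤ p y + K := by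
    refine ⟨∑ y ∈ Finset.Icc (-(N : ℤ)) N, |p y|, ?_⟩
    intro y h1 h2
    have h3 := Finset.single_le_sum (f := fun y => |p y|) (fun y _ => abs_nonneg (p y))
      (Finset.mem_Icc.mpr ⟨h1, h2⟩)
    have h4 := neg_abs_le (p y)
    have h5 : |p y| ≤ ∑ y ∈ Finset.Icc (-(N : ℤ)) N, |p y| := h3
    omega
  have hb : -(N : ℤ) + ((2 * N : ℕ) : ℤ) = N := by
    push_cast
    ring
  obtain ⟨w, hw, hw2⟩ := grow (-(N : ℤ)) N (∑ y ∈ Finset.Icc (-(N : ℤ)) N, (p y + K)).toNat
    (fun y => p y + K) hK (by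
      rw [Int.toNat_of_nonneg]
      exact Finset.sum_nonneg fun y hy => by
        rw [Finset.mem_Icc] at hy
        exact hK y hy.1 hy.2)
  refine ⟨flat (-(N : ℤ)) (2 * N) ++ w, ?_, ?_⟩
  · intro x hx
    rcases List.mem_append.mp hx with h | h
    · have := flat_mem _ _ x h
      rw [hb] at this
      exact this
    · exact hw x h
  · intro h y h1 h2
    rw [run_append]
    obtain ⟨c, hc⟩ := flat_run (-(N : ℤ)) (2 * N) h
    rw [hb] at hc
    obtain ⟨g1, -, -⟩ := hw2 c _ hc
    rw [g1 y h1 h2, g1 0 (by omega) (by omega)]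
    show c + (p y + K) - (c + (p 0 + K)) = p y
    rw [hp]
    ring

/-- the configuration seen from `x₀` -/
def sh (x₀ : ℤ) (h : Config) : Config := fun y => h (x₀ + y)

theorem sh_rg (x₀ x : ℤ) (h : Config) : sh x₀ (rg (x₀ + x) h) = rg x (sh x₀ h) := by
  funext y
  show rg (x₀ + x) h (x₀ + y) = rg x (sh x₀ h) y
  by_cases hy : y = x
  · subst hy
    rw [rg_same, rg_same]
    show max (max (h (x₀ + y - 1)) (h (x₀ + y + 1))) (h (x₀ + y) + 1) =
      max (max (h (x₀ + (y - 1))) (h (x₀ + (y + 1)))) (h (x₀ + y) + 1)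
    rw [show x₀ + y - 1 = x₀ + (y - 1) by ring, show x₀ + y + 1 = x₀ + (y + 1) by ring]
  · rw [rg_ne _ hy, rg_ne _ (by omega)]
    rfl

theorem sh_run (x₀ : ℤ) (w : List ℤ) (h : Config) :
    sh x₀ (run (w.map (x₀ + ·)) h) = run w (sh x₀ h) := by
  induction w generalizing h with
  | nil => rfl
  | cons x w ih =>
    show sh x₀ (run (w.map (x₀ + ·)) (rg (x₀ + x) h)) = run w (rg x (sh x₀ h))
    rw [ih, sh_rg]

end Pool.BDep.Sync
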